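import Pool.Agent.K4H62.IT.Fin

/-!
# The inequality of Iitaka for the images of fibrations by curves

Let `V` be a projective variety over `ℂ` of dimension `n + 1` and `V ⇢ V'` a rational map with
irreducible generic fibres onto a variety of dimension `n`, with function field `ℂ(t 1, ..., t N)`;
let `H` be the pullback of the hyperplane class under `V ⇢ V' ⊂ ℙ ^ N`. The fibres are curves of any
genus. Suppose that there are sections of `K_V - M H` which generate the regular differentials of
the (geometric) generic fibre: canonical forms `ω j` on `V` such that `t ^ a ω j` is regular for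
`|a| ≤ M` and such that the restrictions of the `ω j` generate. For example `V` may be a general
hypersurface of multidegree `(e 1, ..., e n, a, b)` in `(ℙ ^ 1) ^ (n + 2)` with `e l ≥ M + 2`.

Let `V ⇢ W` be any dominant rational map of finite degree; it is not assumed to be related to the
fibration `V ⇢ V'`. Let `W'` be the image of `V` in `W × V'`, and let `m` be the degree of `W' → W`;
it is at most the degree of `V ⇢ W`. Let `W → Y` be any fibration (of smooth models; all rational maps
`W ⇢ Y` onto varieties are allowed) with generic fibre `F`. The theorem is about all these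
fibrations; no assumption on `Y` or `F` is made, and `V` and `V ⇢ V'` are not related to `W ⇢ Y`.

* If `2 m ≤ M + 1` then `κ(W) ≥ κ(F) + κ(Y)`.
* If `m ≤ M` then `κ(W) ≥ min (κ(F) + κ(Y), dim W - 2)`, and, if `κ(V') ≥ 0`, also
  `κ(W) ≥ min (κ(F) + κ(Y), dim W - 1)`.
* If `m ≤ M + 1`, `κ(Y) ≥ 0` and `K_F` is pseudo-effective (for example `κ(F) ≥ 0`) then `p_g(W) > 0`.

Proof. Let `κ(Y) ≥ 0` and let `K_F` be pseudo-effective. Then `W` is not uniruled. By the theorem on
the images of fibrations by curves (`MP_97d78d_ag`) this implies `κ(W) ≥ dim W - 1` (or the other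
lower bounds). So one can assume that `2 m ≤ M + 1` and that `Y` and `F` are of general type. It is
shown that `W` is of general type, in the following way; the theorems of Kollár and Viehweg are not
used. Let `h j` be the trace on `W'` of the form `ω j`. If the quotient `u` of two of the `h j` is
not a function on `V'` then the forms `Tr (A(t) u ^ e h)` on `W`, with `deg A ≤ M`, `e ≤ 1`, have
`n + 1` algebraically independent ratios: the functions `A(t) u ^ e` separate the points over two
points of `W`. Otherwise the traces of the regular differentials of the fibres of `V ⇢ V'` show that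
the geometric generic fibre `Γ` of `W' ⇢ V'` has at most one regular differential. It is not rational,
as `W` is not uniruled; so its canonical divisor is trivial. Now let `y` be a transcendence basis of
`ℂ(Y)`, and suppose that some `y i` is not in `ℂ(V')`. There are functions `z` on `V'` such that
`y, z` is a transcendence basis of `ℂ(W')`. Restrict the pluricanonical forms `a (dy) ^ r` of `Y`,
which are forms of maximal degree over `ℂ(z)`, to `Γ`. They are regular, so the ratios of the `a` are
constant on `Γ`, i.e. in `ℂ(V')`; as `Y` is of general type, `ℂ(Y) ⊂ ℂ(V')`. The same argument over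
the field `ℂ(Y)`, for the forms on `F`, shows `ℂ(W) ⊂ ℂ(V')`, a contradiction.
-/

set_option autoImplicit false
set_option linter.overlappingInstances false
set_option maxHeartbeats 4000000
set_option synthInstance.maxHeartbeats 400000

open FF Module Pool.Agent Pool.Agent.W602.GT Pool.Agent.W603.LV

namespace Pool.Agent.Results.MP_f72953_ag.ImagesOfCurveFibrations

/-- `ω` is a canonical form on the variety of dimension `n` with the function field `K` which is a
section of `K_V - M H`, where `H` is the pullback of the hyperplane class under the map given by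
`1, t 1, ..., t N`: the forms `t ^ a ω`, `|a| ≤ M`, are regular at all prime divisors. -/
def Twisted {K : Type} [Field K] [Algebra ℂ K] {N : ℕ} (n M : ℕ) (t : Fin N → K)
    (ω : (Fin n → Derivation ℂ K K) → K) : Prop :=
  IsPluri 1 ω ∧ ∀ a : Fin N → ℕ, ∑ j, a j ≤ M → ∀ P : Place ℂ K, Divisorial n P →
    RegAt P (fun D => (∏ j, t j ^ a j) * ω D)

/-- The restrictions of the canonical forms `ω j` on `V` to the geometric generic fibre of
`V ⇢ V'`, `ℂ(V') = B`, generate its regular differentials. Here `F` is the function field of the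
geometric generic fibre, over the algebraically closed field `Λ`, and `φ : K → F` is the
restriction; `ξ` is a coordinate of the fibre, `E` are the vector fields dual to the coordinates
`t, ξ` of `V`, and the restriction of `ω j` is `φ (ω j E) dξ`; a differential `f dξ` on the fibre is
regular if `ord_Q f + ord_Q dξ ≥ 0` for all places `Q`, where `ord_Q dξ = - vo Q D`, `D = d/dξ`. -/
def GenerateFibre {K : Type} [Field K] [Algebra ℂ K] {n : ℕ} {J : Type}
    (B : IntermediateField ℂ K) (ω : J → (Fin (n + 1) → Derivation ℂ K K) → K) : Prop :=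
  ∀ (Λ F : Type) [Field Λ] [IsAlgClosed Λ] [Algebra ℂ Λ] [Field F] [Algebra Λ F]
    [Algebra ℂ F] [IsScalarTower ℂ Λ F] (φ : K →ₐ[ℂ] F), IsFF Λ F →
    IntermediateField.adjoin Λ (Set.range φ) = ⊤ →
    (∀ z ∈ B, ∃ a : Λ, algebraMap Λ F a = φ z) →
    (∀ z : K, ¬ IsAlgebraic B z → Transcendental Λ (φ z)) →
    ∀ (t : Fin n → K) (ξ : K), (∀ j, t j ∈ B) →
      IsTranscendenceBasis ℂ (Fin.append t (fun _ : Fin 1 => ξ)) →
    ∀ E : Fin (n + 1) → Derivation ℂ K K,
      (∀ i j, E i (Fin.append t (fun _ : Fin 1 => ξ) j) = if i = j then 1 else 0) →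
    ∀ D : Derivation Λ F F, D (φ ξ) = 1 →
      (∀ j (Q : Place Λ F), φ (ω j E) = 0 ∨ vo Q D ≤ Q.ord (φ (ω j E))) →
    ∀ f : F, f ≠ 0 → (∀ Q : Place Λ F, vo Q D ≤ Q.ord f) →
      f ∈ Submodule.span Λ (Set.range fun j => φ (ω j E))

/-- The Kodaira dimension of the smooth projective varieties `X` of dimension `n` over `k` with the
function field `K` is at least `h`: for some `r ≥ 1` there are sections of `r K_X`, i.e. `r`-fold
canonical forms which are regular at all prime divisors, with `h` algebraically independent
ratios. -/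
def KappaGe (k K : Type) [Field k] [Field K] [Algebra k K] (n h : ℕ) : Prop :=
  KodGe k K n (fun _ => False) h

/-- The canonical divisor of the smooth projective varieties of dimension `n` over `k` with the
function field `K` is pseudo-effective. -/
def IsPseudoEffective (k K : Type) [Field k] [Field K] [Algebra k K] (n : ℕ) : Prop :=
  Psef k K n (fun _ => False)

/-- **The inequality of Iitaka for the images of fibrations by curves.** Let `V` be a variety of
dimension `n + 1` with function field `K`, and `V ⇢ V'` a rational map onto a variety of dimension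
`n` with function field `ℂ(t)`, with irreducible generic fibres. Let the `ω j` be finitely many
canonical forms such that the `t ^ a ω j`, `|a| ≤ M`, are regular and whose restrictions generate the
regular differentials of the geometric generic fibre. Let `V ⇢ W` be a dominant rational map of
finite degree, `L` the function field of `W`, and `m` the degree over `W` of the image of `V` in
`W × V'`. Let `W ⇢ Y` be a dominant rational map, given by the subfield `E` of `L`, `d = dim Y`, and
`F` its generic fibre, a variety of dimension `f'` over `E` with the function field `L`.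
If `2 m ≤ M + 1` then `κ(W) ≥ κ(F) + κ(Y)`. If `m ≤ M` then `κ(W) ≥ min (κ(F) + κ(Y), dim W - 2)`
and, if `κ(V') ≥ 0`, `κ(W) ≥ min (κ(F) + κ(Y), dim W - 1)`. If `m ≤ M + 1`, `κ(Y) ≥ 0` and `K_F` is
pseudo-effective then there is a nonzero regular canonical form on `W`. -/
theorem result {n N M : ℕ} {K : Type} [Field K] [Algebra ℂ K] [Algebra.EssFiniteType ℂ K]
    (hK : Algebra.trdeg ℂ K = (n + 1 : ℕ)) {t : Fin N → K}
    (hd : Algebra.trdeg ℂ (IntermediateField.adjoin ℂ (Set.range t)) = (n : ℕ))
    (hcl : ∀ g : K, IsAlgebraic (IntermediateField.adjoin ℂ (Set.range t)) g →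
      g ∈ IntermediateField.adjoin ℂ (Set.range t))
    {J : Type} [Finite J] {ω : J → (Fin (n + 1) → Derivation ℂ K K) → K}
    (hω : ∀ j, Twisted (n + 1) M t (ω j))
    (hgen : GenerateFibre (IntermediateField.adjoin ℂ (Set.range t)) ω)
    (L : Type) [Field L] [Algebra ℂ L] [Algebra L K] [IsScalarTower ℂ L K]
    [FiniteDimensional L K] {m : ℕ}
    (hm : Module.finrank L (IntermediateField.adjoin L (Set.range t)) = m)
    (E : IntermediateField ℂ L) [Algebra.EssFiniteType ℂ E] {d f' : ℕ}
    (hdE : Algebra.trdeg ℂ E = d) (hf' : Algebra.trdeg E L = f') :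
    (2 * m ≤ M + 1 → ∀ p q : ℕ, KappaGe ℂ E d p → KappaGe E L f' q →
      KappaGe ℂ L (n + 1) (q + p)) ∧
    (m ≤ M → ∀ p q : ℕ, KappaGe ℂ E d p → KappaGe E L f' q →
      KappaGe ℂ L (n + 1) (min (q + p) (n - 1)) ∧
      (KappaGe ℂ (IntermediateField.adjoin ℂ (Set.range t)) n 0 →
        KappaGe ℂ L (n + 1) (min (q + p) n))) ∧
    (m ≤ M + 1 → KappaGe ℂ E d 0 → IsPseudoEffective E L f' →
      ∃ η : (Fin (n + 1) → Derivation ℂ L L) → L, IsPluri 1 η ∧
        (∀ P : Place ℂ L, Divisorial (n + 1) P → RegAt P η) ∧ ∃ D, η D ≠ 0) := by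
  classical
  have hL : Algebra.trdeg ℂ L = (n + 1 : ℕ) := Pool.Agent.Y184.NT.trdeg_below (K := K) hK
  have hessL : Algebra.EssFiniteType ℂ L := Pool.Agent.TH466.QG.ess_below (K := K)
  have hpos : 0 < Module.finrank L (IntermediateField.adjoin L (Set.range t)) :=
    Module.finrank_pos
  have hkey : KappaGe ℂ E d 0 → IsPseudoEffective E L f' →
      ¬ Pool.Agent.W619.PQ.IsUniruled ℂ L (n + 1) :=
    fun h3 h4 h5 => Pool.Agent.R882.UA.fib_not hL h5 E hdE hf' h3 h4
  have hkey' : ∀ p q : ℕ, KappaGe ℂ E d p → KappaGe E L f' q →
      ¬ Pool.Agent.W619.PQ.IsUniruled ℂ L (n + 1) := fun p q h3 h4 =>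
    hkey (Pool.Agent.R882.UA.kod_mono h3 (Nat.zero_le _))
      (psef_of_kodGe (Pool.Agent.R882.UA.kod_mono h4 (Nat.zero_le _)))
  refine ⟨fun hs p q h1 h2 => ?_, fun hs p q h1 h2 => ⟨?_, fun h3 => ?_⟩, fun hs h1 h2 => ?_⟩
  · rw [add_comm q p]
    exact Pool.Agent.K4H62.IT.iitaka_ab hK hd hcl hω hgen L (by rw [hm]; exact hs) E hdE hf' h1 h2
  · have hM : 1 ≤ M := by omega
    rcases Nat.eq_zero_or_pos n with h0 | h0
    · subst h0
      have h4 := Pool.Agent.K4H25.AB.main_tfae hK hd hcl hω hgen L (by omega)
      have h5 := (h4.out 1 3).not.2 (hkey' p q h1 h2)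
      exact Pool.Agent.R882.UA.kod_mono (not_not.1 h5) (by omega)
    · obtain ⟨r, rfl⟩ : ∃ r, n = r + 1 := ⟨n - 1, by omega⟩
      have h4 := (Pool.Agent.K4H25.AB.main_curve hM hK hd hcl hω hgen L (by omega)).1 r rfl
      exact Pool.Agent.R882.UA.kod_mono (h4.resolve_left (hkey' p q h1 h2)) (by omega)
  · have hM : 1 ≤ M := by omega
    have h4 := (Pool.Agent.K4H25.AB.main_curve hM hK hd hcl hω hgen L (by omega)).2 h3
    exact Pool.Agent.R882.UA.kod_mono (h4.resolve_left (hkey' p q h1 h2)) (by omega)
  · have h4 := Pool.Agent.K4H25.AB.main_tfae hK hd hcl hω hgen L (by omega)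
    have h5 := (h4.out 0 3).not.2 (hkey h1 h2)
    by_contra hcon
    apply h5
    intro η h6 h7 D
    by_contra h8
    exact hcon ⟨η, h6, h7, D, h8⟩

end Pool.Agent.Results.MP_f72953_ag.ImagesOfCurveFibrations
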