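import Pool.Agent.K4H62.IT.Fin

/-!
# The inequality of Iitaka for the images of products of curves

Let `C 0, C 1, ..., C n` be projective curves over the complex numbers, where `C 0` is arbitrary and
the gonality of `C p` is at least `M p + 2` for `p ≥ 1`: all nonconstant rational functions on `C p`
have degree at least `M p + 2`. Let `V = C 0 × ... × C n`, and let `V ⇢ W` be a dominant rational map
of finite degree. The map is arbitrary; it is not assumed to be related to the product structure, or
to be Galois. Let `V' = C 1 × ... × C n`, let `W'` be the image of `V` in `W × V'` and, for a nonempty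
set `Λ` of indices `p ≥ 1`, let `W' Λ` be its image in the product of `W` and the `C p`, `p ∉ Λ`, and
`m Λ` the degree of `W' → W' Λ`. In particular `m Λ ≤ m`, where `m` is the degree of `V ⇢ W`.

Let `W → Y` be any fibration (of smooth models; all rational maps `W ⇢ Y` onto varieties are
allowed) with generic fibre `F`; it is not assumed to be related to the product structure.

* If `2 m Λ ≤ 1 + ∑_{p ∈ Λ} M p` for all `Λ ≠ ∅` then `κ(W) ≥ κ(F) + κ(Y)`.
* If `m Λ ≤ 1 + ∑_{p ∈ Λ} M p` for all `Λ ≠ ∅`, and `2 m Λ ≤ 1 + ∑_{p ∈ Λ} M p` for all `Λ` with more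
  than `n - r` elements, then `κ(W) ≥ min (κ(F) + κ(Y), r)`.

For example, let `m` be the degree of `V ⇢ W`. If `2 m < gon (C p)` for `p ≥ 1` then
`κ(W) ≥ κ(F) + κ(Y)` for all fibrations `W → Y`. If only `2 ≤ m < gon (C p)` for `p ≥ 1` then the
second part holds with `r = n - 2`: for at least three elements, `2 m ≤ 1 + 3 (m - 1)`. So
`κ(W) ≥ κ(F) + κ(Y)` if the sum on the right is at most `dim W - 3`.

Proof. Let `κ(Y) ≥ 0` and `κ(F) ≥ 0`. Then `W` is not uniruled. So `κ(W) ≥ r`, in the second part, and
`κ(W) ≥ n = dim W - 1`, in the first part, by the theorem on images of products of curves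
(`MP_97d78d_ag`), and one can assume that `Y` and `F` are of general type. It is shown that `W` is of
general type, in the following way; the theorems of Kollár and Viehweg are not used. Let `h j` be the
trace on `W'` of the form `η j ∧ d x 1 ∧ ... ∧ d x n`, where the `η j` are the regular differentials
on `C 0` and `x p` is a function on `C p`. If the quotient `u` of two of the `h j` is not a function
on `V'` then the forms `Tr (G u ^ e h)` on `W`, where `e ≤ 1` and `G` is a product of functions `g p`
on `C p` such that `g p d x p` is regular, have `n + 1` algebraically independent ratios: the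
functions `G u ^ e` separate the points over two points of `W`, by the theorem of Riemann-Roch on the
curves and the marriage theorem. Otherwise the geometric generic fibre `Γ` of `W' ⇢ V'` has at most
one regular differential. It is not rational, as `W` is not uniruled; so its canonical divisor is
trivial. Now let `y` be a transcendence basis of `ℂ(Y)`, and suppose that some `y i` is not in
`ℂ(V')`. There are functions `z` on `V'` such that `y, z` is a transcendence basis of `ℂ(W')`.
Restrict the pluricanonical forms `a (dy) ^ r` of `Y`, which are forms of maximal degree over `ℂ(z)`,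
to `Γ`. They are regular, so the ratios of the `a` are constant on `Γ`, i.e. in `ℂ(V')`; as `Y` is of
general type, `ℂ(Y) ⊂ ℂ(V')`. The same argument over the field `ℂ(Y)`, for the forms on `F`, shows
`ℂ(W) ⊂ ℂ(V')`, a contradiction.
-/

set_option autoImplicit false
set_option linter.overlappingInstances false
set_option maxHeartbeats 4000000
set_option synthInstance.maxHeartbeats 400000

open FF Module Pool.Agent Pool.Agent.W602.GT

namespace Pool.Agent.Results.MP_f72953_ag.ImagesOfProductsOfCurves

/-- The gonality of the curve with the function field `E` is at least `g`: all nonconstant functions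
have degree at least `g`. -/
def GonalityGe (E : Type) [Field E] [Algebra ℂ E] (g : ℕ) : Prop :=
  ∀ b : E, Transcendental ℂ b → g ≤ finrank (IntermediateField.adjoin ℂ {b}) E

/-- The degree `m Λ` of `W' → W' Λ`: the degree of the field which is generated over `L` by the
function fields of the curves `C p` over its subfield which is generated by those with `p ∉ Λ`. -/
noncomputable def blockDegree {K : Type} [Field K] [Algebra ℂ K] {n : ℕ} (L : Type) [Field L]
    [Algebra L K] (C : Fin n → IntermediateField ℂ K) (Λ : Finset (Fin n)) : ℕ :=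
  (IntermediateField.adjoin L {z | ∃ p, p ∉ Λ ∧ z ∈ C p}).relfinrank
    (IntermediateField.adjoin L {z | ∃ p, z ∈ C p})

/-- The Kodaira dimension of the smooth projective varieties `X` of dimension `n` over `k` with the
function field `K` is at least `h`: for some `r ≥ 1` there are sections of `r K_X`, i.e. `r`-fold
canonical forms which are regular at all prime divisors, with `h` algebraically independent
ratios. -/
def KappaGe (k K : Type) [Field k] [Field K] [Algebra k K] (n h : ℕ) : Prop :=
  KodGe k K n (fun _ => False) h

/-- **The inequality of Iitaka for the images of products of curves.** Let `K` be the function field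
of the product `V` of `n + 1` curves, where the curve `p` has the function field `C p`: the field `K`
is generated by the `C p` and has transcendence degree `n + 1`. Let the gonality of the curves with
`p ≥ 1` be at least `M p + 2`. Let `V ⇢ W` be a dominant rational map of finite degree, `L` the
function field of `W`. Let `W ⇢ Y` be a dominant rational map, given by the subfield `E` of `L`,
`d = dim Y`, and `F` its generic fibre, a variety of dimension `f'` over `E` with the function field
`L`. If `2 m Λ ≤ 1 + ∑_{p ∈ Λ} M p` for all nonempty sets `Λ` of indices `p ≥ 1` then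
`κ(W) ≥ κ(F) + κ(Y)`. If `m Λ ≤ 1 + ∑_{p ∈ Λ} M p` for all nonempty `Λ`, `r ≤ n`, and
`2 m Λ ≤ 1 + ∑_{p ∈ Λ} M p` for all `Λ` with more than `n - r` elements, then
`κ(W) ≥ min (κ(F) + κ(Y), r)`. -/
theorem result {n : ℕ} {K : Type} [Field K] [Algebra ℂ K]
    {C : Fin (n + 1) → IntermediateField ℂ K} (hfg : ∀ p, Algebra.EssFiniteType ℂ (C p))
    (hone : ∀ p, Algebra.trdeg ℂ (C p) = 1) (hgen : ⨆ p, C p = ⊤)
    (hK : Algebra.trdeg ℂ K = (n + 1 : ℕ)) {M : Fin n → ℕ}
    (hgon : ∀ p : Fin n, GonalityGe (C p.succ) (M p + 2))
    (L : Type) [Field L] [Algebra ℂ L] [Algebra L K] [IsScalarTower ℂ L K]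
    [FiniteDimensional L K] (E : IntermediateField ℂ L) [Algebra.EssFiniteType ℂ E] {d f' : ℕ}
    (hdE : Algebra.trdeg ℂ E = d) (hf' : Algebra.trdeg E L = f') {p q : ℕ}
    (hY : KappaGe ℂ E d p) (hF : KappaGe E L f' q) :
    ((∀ Λ : Finset (Fin n), Λ.Nonempty →
      2 * blockDegree L (fun p : Fin n => C p.succ) Λ ≤ 1 + ∑ p ∈ Λ, M p) →
      KappaGe ℂ L (n + 1) (q + p)) ∧
    ((∀ Λ : Finset (Fin n), Λ.Nonempty →
      blockDegree L (fun p : Fin n => C p.succ) Λ ≤ 1 + ∑ p ∈ Λ, M p) →
      ∀ r : ℕ, r ≤ n → (∀ Λ : Finset (Fin n), n - r < Λ.card →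
        2 * blockDegree L (fun p : Fin n => C p.succ) Λ ≤ 1 + ∑ p ∈ Λ, M p) →
      KappaGe ℂ L (n + 1) (min (q + p) r)) := by
  classical
  have hFF : ∀ p, IsFF ℂ (C p) := fun p => ⟨hfg p, hone p⟩
  refine ⟨fun hm => ?_, fun hm r hr hk => ?_⟩
  · rw [add_comm q p]
    exact Pool.Agent.K4H62.IT.iitaka_pc (C := C) hgen hK (M := M) (fun p b hb => hgon p b hb) L
      (fun Λ hΛ => (hm Λ hΛ).trans_eq (add_comm _ _)) E hdE hf' hY hF
  · obtain ⟨-, h2⟩ := Pool.Agent.K4H25.PC.main_prod (C := C) hgen hK (M := M)
      (fun p b hb => hgon p b hb) L (fun Λ hΛ => (hm Λ hΛ).trans_eq (add_comm _ _))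
    have hess : Algebra.EssFiniteType ℂ K := by
      obtain ⟨N, β, t, -, hgens⟩ := Pool.Agent.K4H25.PC.exists_gens (C := C)
      have h1 := hgens ∅ ℂ
      have h2 : t '' {j | β j ∉ (∅ : Finset (Fin (n + 1)))} = Set.range t := by
        rw [← Set.image_univ]
        congr 1
        ext j
        simp
      have h3 : IntermediateField.adjoin ℂ (Set.range t) = ⊤ := by
        rw [← h2, h1, eq_top_iff, ← hgen]
        refine iSup_le fun p z hz => ?_
        exact IntermediateField.subset_adjoin ℂ _ ⟨p, by simp, hz⟩
      rw [← IntermediateField.fg_top_iff, ← h3]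
      exact ⟨Finset.univ.image t, by rw [Finset.coe_image, Finset.coe_univ, Set.image_univ]⟩
    have hessL : Algebra.EssFiniteType ℂ L := Pool.Agent.TH466.QG.ess_below (K := K)
    have hL : Algebra.trdeg ℂ L = (n + 1 : ℕ) := Pool.Agent.Y184.NT.trdeg_below (K := K) hK
    have hnu : ¬ Pool.Agent.W619.PQ.IsUniruled ℂ L (n + 1) := fun h5 =>
      Pool.Agent.R882.UA.fib_not hL h5 E hdE hf' (Pool.Agent.R882.UA.kod_mono hY (Nat.zero_le _))
        (psef_of_kodGe (Pool.Agent.R882.UA.kod_mono hF (Nat.zero_le _)))
    have h3 := h2 r hr fun Λ hΛ => (hk Λ (by omega)).trans_eq (add_comm _ _)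
    exact Pool.Agent.R882.UA.kod_mono (h3.resolve_left hnu) (min_le_right _ _)

end Pool.Agent.Results.MP_f72953_ag.ImagesOfProductsOfCurves
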