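import Pool.Agent.K4H25.RT.R14

/-!
# The inequality of Iitaka for the images of families of fibrations by curves

Let `V → Y` be a dominant rational map of complex varieties, where `Y` is any variety, and `V_y` its
generic fibre, of dimension `d + 1`. Let `t` be a rational map of `V` to a product of projective
spaces `P_1 × ... × P_q`, and let `H p` be the pull-back of the hyperplane class of `P_p`. Suppose that the
generic fibres of `V` over its image `V'` in `Y × P_1 × ... × P_q` are irreducible curves; they can have
any genus. Suppose that there are sections `τ j` of `K_{V/Y} - ∑ M p H p` (relative canonical forms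
such that the forms `A(t) τ j ∧ η` are regular, on all models of `V`, over the open sets of all models of
`Y` where the canonical form `η` of `Y` is regular, for all polynomials `A` whose degree in the
variables of the block `p` is at most `M p`), which generate the regular differentials of the
(geometric) generic fibre of `V → V'`. For example `V` may be `V_1 × Y'`, where `V_1` is a product of
curves, or a variety which is fibred by curves in this way over a variety of any Kodaira dimension,
and `Y' → Y` is a map of finite degree.

Let `V → W → Y` be a factorisation with `V → W` of finite degree, and `F` the generic fibre of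
`W → Y`. There is no other condition on the map `V → W` (it need not be compatible with `V → V'`), and
no condition on `Y`. Let `W'` be the image of `V` in `W × P_1 × ... × P_q`, `m` the degree of `W'` over
`W` and, for a nonempty set `Λ` of blocks, `m Λ` the degree of `W'` over its image in the product of
`W` and the `P_p`, `p ∉ Λ`; so `m Λ ≤ m`, and `m` is at most the degree of `V → W`.

* If `2 m Λ ≤ 1 + ∑_{p ∈ Λ} M p` for all `Λ ≠ ∅` then `κ(W) ≥ κ(F) + κ(Y)`.
* Let `m Λ ≤ 1 + ∑_{p ∈ Λ} M p` for all `Λ ≠ ∅`, and `2 m Λ ≤ 1 + ∑_{p ∈ Λ} M p` if moreover the image of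
  `V_y` in the product of the `P_p`, `p ∉ Λ`, has dimension less than `r`, where `r ≤ dim F - 1`. If
  `κ(Y) ≥ 0` and `K_F` is pseudo-effective then `κ(W) ≥ r + κ(Y)`; so `κ(W) ≥ κ(F) + κ(Y)` or
  `κ(F) > r` (also if `κ(F)` or `κ(Y)` is `-∞`).
* If `m ≤ M p` for all `p` then the same is true for `r = dim F - 2`.

In the first part, all values of `κ(F)` and `κ(Y)` are possible, `F` can be of general type and `Y` is
arbitrary; the theorems of Kollár, Viehweg and Kawamata are not used.

Proof. Let `κ(Y) ≥ 0` and let `K_F` be pseudo-effective. Then `W` is not uniruled. If the traces of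
the forms `ω j = τ j ∧ dz` on `W'` were zero then the curves which are the fibres of `W' → V'` would be
rational, as the regular differentials of the fibres of `V → V'` are generated by the `ω j`. So some
trace is not zero, and the traces of the forms `A(t) τ j` on `W` are relative canonical forms with `r`
algebraically independent ratios over `ℂ(Y)` (`RelativeTwistedForms`). Now let `κ(F) = dim F`
and `κ(Y) = p`, in the case of the first part. Let `h j` be the trace of `ω j` on `W'`. If the quotient
`u` of two of the `h j` is not a function on `V'` then the traces on `W` of `A(t) u ^ e h`, with `e ≤ 1`,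
are relative canonical forms with `dim F` algebraically independent ratios over `ℂ(Y)`; their products
with the pluricanonical forms of `Y` show `κ(W) ≥ dim F + p`. Otherwise the traces of the regular
differentials of the fibres of `V → V'` show that the geometric generic fibre `Γ` of `W' → V'` has at
most one regular differential; it is not rational, as `W` is not uniruled, so its canonical divisor
is trivial. Choose coordinates of `F`, not all in the algebraic closure of `ℂ(V')`, and restrict the
pluricanonical forms of `F` to `Γ`. They are regular, so their ratios are constant on `Γ`, i.e. in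
`ℂ(V')`; as `F` is of general type this shows `ℂ(W) ⊂ ℂ(V')`, a contradiction.

Compare: in `ImagesOfCurveFibrations` and `ImagesOfProductsOfCurves` the forms are sections of
`K_V - M H`, so that `κ(W) ≥ dim W - 1` if `W` is not uniruled. Here the positivity is only relative to
`Y`, and `κ(W)` can be any number. In `RelativeTwistedForms` it is assumed that the trace of the
form `τ` on `W'` is not zero, and `κ(F)` is compared with `r ≤ dim F - 1` only.
-/

set_option autoImplicit false
set_option linter.overlappingInstances false
set_option maxHeartbeats 4000000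
set_option synthInstance.maxHeartbeats 400000

open FF Module Pool.Agent Pool.Agent.W602.GT Pool.Agent.W603.LV

namespace Pool.Agent.Results.MP_f72953_ag.RelativeCurveFibrations

/-- The canonical form `g dz_1 ∧ ... ∧ dz_e` on `Y`, in the coordinates `z`: its value on vector
fields `D i`. -/
noncomputable def baseForm {E : Type} [Field E] [Algebra ℂ E] {e : ℕ} (z : Fin e → E) (g : E)
    (D : Fin e → Derivation ℂ E E) : E :=
  (Matrix.of fun i j => D i (z j) : Matrix (Fin e) (Fin e) E).det * g

/-- The canonical form `ω` on `V` is `τ ∧ dz`, where `z` are coordinates on `Y` and `τ` is a section of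
`K_{V/Y} - ∑ M p H p`; the variable `t j` is in the block `β j`: if the canonical form `g dz` on `Y` is
regular at the place of `ℂ(Y) = E` under the divisorial place `Q` of `ℂ(V) = K` (this is no condition
if `Q` is trivial on `E`), then the forms `g t ^ a ω` are regular at `Q`, for all monomials `t ^ a` of
degree at most `M p` in the variables of the block `p`. -/
def RelativeTwisted {K E : Type} [Field K] [Field E] [Algebra ℂ K] [Algebra ℂ E] [Algebra E K]
    [IsScalarTower ℂ E K] {N q e : ℕ} (n : ℕ) (z : Fin e → E) (β : Fin N → Fin q)
    (M : Fin q → ℕ) (t : Fin N → K) (ω : (Fin n → Derivation ℂ K K) → K) : Prop :=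
  IsPluri 1 ω ∧ ∀ a : Fin N → ℕ, (∀ b, ∑ j with β j = b, a j ≤ M b) →
    ∀ (g : E) (Q : Place ℂ K), Divisorial n Q →
      (∀ (R : Place ℂ E) (c : ℕ), Over Q R c → RegAt R (baseForm z g)) →
        RegAt Q (fun D => algebraMap E K g * ((∏ j, t j ^ a j) * ω D))

/-- The restrictions of the canonical forms `ω j` on `V` to the geometric generic fibre of
`V → V'`, `ℂ(V') = B`, generate its regular differentials. Here `F` is the function field of the
geometric generic fibre, over the algebraically closed field `Λ`, and `φ : K → F` is the
restriction; `ξ` is a coordinate of the fibre, `E` are the vector fields dual to the coordinates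
`y, ξ` of `V`, and the restriction of `ω j` is `φ (ω j E) dξ`; a differential `f dξ` on the fibre is
regular if `ord_Q f + ord_Q dξ ≥ 0` for all places `Q`, where `ord_Q dξ = - vo Q D`, `D = d/dξ`. -/
def GenerateFibre {K : Type} [Field K] [Algebra ℂ K] {n : ℕ} {J : Type}
    (B : IntermediateField ℂ K) (ω : J → (Fin (n + 1) → Derivation ℂ K K) → K) : Prop :=
  ∀ (Λ F : Type) [Field Λ] [IsAlgClosed Λ] [Algebra ℂ Λ] [Field F] [Algebra Λ F]
    [Algebra ℂ F] [IsScalarTower ℂ Λ F] (φ : K →ₐ[ℂ] F), IsFF Λ F →
    IntermediateField.adjoin Λ (Set.range φ) = ⊤ →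
    (∀ z ∈ B, ∃ a : Λ, algebraMap Λ F a = φ z) →
    (∀ z : K, ¬ IsAlgebraic B z → Transcendental Λ (φ z)) →
    ∀ (y : Fin n → K) (ξ : K), (∀ j, y j ∈ B) →
      IsTranscendenceBasis ℂ (Fin.append y (fun _ : Fin 1 => ξ)) →
    ∀ E : Fin (n + 1) → Derivation ℂ K K,
      (∀ i j, E i (Fin.append y (fun _ : Fin 1 => ξ) j) = if i = j then 1 else 0) →
    ∀ D : Derivation Λ F F, D (φ ξ) = 1 →
    ∀ f : F, f ≠ 0 → (∀ Q : Place Λ F, vo Q D ≤ Q.ord f) →
      f ∈ Submodule.span Λ (Set.range fun j => φ (ω j E))

/-- The degree `m Λ` of `W'` over its image in the product of `W` and the factors outside of `Λ`: the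
degree of the field `L(t)` over its subfield which is generated over `L = ℂ(W)` by the variables
`t j` outside of the blocks in `Λ`. -/
noncomputable def blockDegree {K : Type} [Field K] {N q : ℕ} (L : Type) [Field L] [Algebra L K]
    (β : Fin N → Fin q) (t : Fin N → K) (Λ : Finset (Fin q)) : ℕ :=
  (IntermediateField.adjoin L (t '' {j | β j ∉ Λ})).relfinrank
    (IntermediateField.adjoin L (Set.range t))

/-- The Kodaira dimension of the smooth projective varieties `X` of dimension `n` over `k` with the
function field `K` is at least `h`: for some `r ≥ 1` there are sections of `r K_X`, i.e. `r`-fold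
canonical forms which are regular at all prime divisors, with `h` algebraically independent
ratios. -/
def KappaGe (k K : Type) [Field k] [Field K] [Algebra k K] (n h : ℕ) : Prop :=
  KodGe k K n (fun _ => False) h

/-- The canonical divisor of the smooth projective varieties of dimension `n` over `k` with the
function field `K` is pseudo-effective. -/
def IsPseudoEffective (k K : Type) [Field k] [Field K] [Algebra k K] (n : ℕ) : Prop :=
  Psef k K n (fun _ => False)

/-- If `κ(Y) ≥ 0`, and `K_F` is pseudo-effective or `κ(F) ≥ 0`, then `κ(W) ≥ r + κ(Y)`. Here `L`, `E` are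
the function fields of `W`, `Y`, of dimensions `n`, `e`, and `F`, of dimension `f`, is the variety over
`E` with the function field `L`. -/
def Conclusion {L : Type} [Field L] [Algebra ℂ L] (E : IntermediateField ℂ L)
    (n e f r : ℕ) : Prop :=
  ∀ p : ℕ, KappaGe ℂ E e p → IsPseudoEffective E L f ∨ KappaGe E L f 0 →
    KappaGe ℂ L n (r + p)

/-- **The inequality of Iitaka for the images of families of fibrations by curves.** Let `K`, `L`,
`E` be the function fields of `V`, `W`, `Y`, where `V → W → Y` are dominant rational maps and `V → W`
has finite degree; `dim V = n + 1`, `dim Y = e`, and the fibre `F` of `W → Y` has dimension `d + 1`.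
Let `t` be functions on `V` such that `V' = E(t)` has dimension `n` (its transcendence degree over
`E` is `d`) and is algebraically closed in `K`, and let the `ω j = τ j ∧ dz` be finitely many canonical
forms on `V`, where the `τ j` are sections of `K_{V/Y} - ∑ M p H p`, which generate the regular
differentials of the geometric generic fibre of `V → V'`. Then `κ(W) ≥ κ(F) + κ(Y)` if
`2 m Λ ≤ 1 + ∑_{p ∈ Λ} M p` for all `Λ ≠ ∅`; and `κ(W) ≥ r + κ(Y)` if `κ(Y) ≥ 0` and `K_F` is
pseudo-effective, for `r ≤ d` under the condition on the degrees `m Λ`, and for `r = d - 1` if the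
degree of `L(t)` over `L` is at most `M p` for all `p`. -/
theorem result {n e d N q : ℕ} {β : Fin N → Fin q} {M : Fin q → ℕ} {K L : Type} [Field K]
    [Field L] [Algebra ℂ K] [Algebra ℂ L] [Algebra L K] [IsScalarTower ℂ L K]
    [Algebra.EssFiniteType ℂ K] [FiniteDimensional L K] (E : IntermediateField ℂ L)
    [Algebra.EssFiniteType ℂ E] (hK : Algebra.trdeg ℂ K = (n + 1 : ℕ))
    (hE : Algebra.trdeg ℂ E = e) (hf : Algebra.trdeg E L = (d + 1 : ℕ)) {z : Fin e → E}
    (hz : IsTranscendenceBasis ℂ z) {t : Fin N → K}
    (hd : Algebra.trdeg E (IntermediateField.adjoin E (Set.range t)) = (d : ℕ))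
    (hcl : ∀ g : K, IsAlgebraic (IntermediateField.adjoin E (Set.range t)) g →
      g ∈ IntermediateField.adjoin E (Set.range t))
    {J : Type} [Finite J] {ω : J → (Fin (n + 1) → Derivation ℂ K K) → K}
    (hω : ∀ j, RelativeTwisted (n + 1) z β M t (ω j))
    (hgen : GenerateFibre ((IntermediateField.adjoin E (Set.range t)).restrictScalars ℂ) ω) :
    ((∀ Λ : Finset (Fin q), Λ.Nonempty → 2 * blockDegree L β t Λ ≤ 1 + ∑ p ∈ Λ, M p) →
      ∀ p s : ℕ, KappaGe ℂ E e p → KappaGe E L (d + 1) s → KappaGe ℂ L (n + 1) (s + p)) ∧
    ((∀ Λ : Finset (Fin q), Λ.Nonempty → blockDegree L β t Λ ≤ 1 + ∑ p ∈ Λ, M p) →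
      ∀ r : ℕ, r ≤ d →
        (∀ Λ : Finset (Fin q), Λ.Nonempty →
          Algebra.trdeg E (IntermediateField.adjoin E (t '' {j | β j ∉ Λ})) < (r : ℕ) →
          2 * blockDegree L β t Λ ≤ 1 + ∑ p ∈ Λ, M p) →
        Conclusion E (n + 1) e (d + 1) r) ∧
    ((∀ p, finrank L (IntermediateField.adjoin L (Set.range t)) ≤ M p) →
      Conclusion E (n + 1) e (d + 1) (d - 1)) := by
  classical
  have hspan : Pool.Agent.K4H25.LP.SpanFibL
      ((IntermediateField.adjoin E (Set.range t)).restrictScalars ℂ) (fun _ => False) ω := by
    intro Λ F _ _ _ _ _ _ _ φ h1 h2 h3 h4 y ξ h5 h6 E' h7 D h8 f h9 _ h10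
    refine hgen Λ F φ h1 h2 h3 h4 y ξ h5 h6 E' h7 D h8 f h9 fun Q => h10 Q ?_
    rintro ⟨P, c, -, -, h⟩
    exact h
  have hpe : ∀ {X : Prop}, IsPseudoEffective E L (d + 1) ∨ KappaGe E L (d + 1) 0 →
      (IsPseudoEffective E L (d + 1) → X) → X := by
    intro X h h'
    rcases h with h | h
    · exact h' h
    · exact h' (psef_of_kodGe h)
  refine ⟨fun hm p s h1 h2 => Pool.Agent.K4H25.RT.iitaka_rel hK hE hf hz hω hd hcl hspan hm h1 h2,
    fun hm r hr hk p h1 h2 => hpe h2 fun h3 => ?_, fun hm p h1 h2 => hpe h2 fun h3 => ?_⟩
  · exact (Pool.Agent.K4H25.RT.psef_rel hK hE hf hz hω hd hcl hspan h1 h3).1 hm r hr hk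
  · exact (Pool.Agent.K4H25.RT.psef_rel hK hE hf hz hω hd hcl hspan h1 h3).2 hm

end Pool.Agent.Results.MP_f72953_ag.RelativeCurveFibrations
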