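import Pool.Agent.K4H25.RT.R7
import Pool.Agent.R882.UC

/-!
# The inequality of Iitaka for the images of families with twisted relative canonical forms

Let `V → Y` be a dominant rational map of complex varieties, where `Y` is any variety, and `V_y` its
generic fibre. Let `t` be a rational map of `V` to a product of projective spaces
`P_1 × ... × P_q`, and `H p` the pull-back of the hyperplane class of `P_p`. Let `τ` be a section of
`K_{V/Y} - ∑ M p H p`: a relative canonical form such that the forms `A(t) τ ∧ η` are regular (on all
models of `V`, over the open sets of all models of `Y` where the canonical form `η` of `Y` is regular)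
for all polynomials `A` whose degree in the variables of the block `p` is at most `M p`. (For example
`V = V_1 × Y`, for a canonical form `τ` on `V_1`, or the fibres of `V` over a smooth model of `Y`
are hypersurfaces of degree at least `N + 1 + M` in `ℙ ^ N` with canonical singularities.) Let `d`
be the dimension of the image of `V_y` under `t`.

Let `V → W → Y` be a factorisation with `V → W` of finite degree. There is no other condition on the map
`V → W`, and no condition on `Y`. Let `F` be the generic fibre of `W → Y`, `W'` the image of `V` in
`W × P_1 × ... × P_q`, `m` the degree of `W'` over `W` and, for a nonempty set `Λ` of blocks, `m Λ` the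
degree of `W'` over its image in the product of `W` and the `P_p`, `p ∉ Λ`; so `m Λ ≤ m`, and `m` is at
most the degree of `V → W`. Suppose that the trace of the form `τ` on `W'` is not zero; this is so if
`τ ≠ 0` and `V` is birational to `W'`, that is, if the points of `V` over a general point of `W` are
separated by `t`.

* Let `m Λ ≤ 1 + ∑_{p ∈ Λ} M p` for all `Λ ≠ ∅`, and `2 m Λ ≤ 1 + ∑_{p ∈ Λ} M p` if moreover the image of
  `V_y` in the product of the `P_p`, `p ∉ Λ`, has dimension less than `r`, where `r ≤ d`. Then
  `κ(W) ≥ r + κ(Y)`. In particular, `κ(W) ≥ κ(F) + κ(Y)` if `κ(V_y) ≤ r`, or if `κ(F) ≤ r`.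
* Let `m ≤ M p` for all `p`. Then the same is true for `r = d - 1`.

So the inequality of Iitaka is true for `W → Y` if `κ(V_y) = d`, for example if `V_y → t(V_y)` has
generic fibres of Kodaira dimension `0`, of any dimension, and `2 m ≤ 1 + min M p`. The fibre `F` is not
assumed to be of general type (Kollár) or to have a good minimal model (Kawamata), and `Y` is
arbitrary.

Proof. The traces `h A` of the forms `A(t) τ` are relative canonical forms on `W` over `Y`, and
`h A ∧ η` is regular where `η` is. Suppose that the ratios of the `h A` generate over `ℂ(Y)` a field of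
transcendence degree less than `r`. Take two generic points of `W` over the same point of `Y`, with
the same ratios of the `h A`. This gives a relation between the values of all monomials `A` at the
points of `W'` over the two points; but they can be separated from each other by products of linear
forms, by the marriage theorem (for `m ≤ M p`: Cayley-Bacharach theorem for double points and
vector fields). If `β 0, ..., β κ` are `s`-canonical forms on `Y` with algebraically independent
ratios then the `s`-canonical forms `h A_1 ... h A_s β j` on `W` are regular at all prime divisors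
`P`: the place of `ℂ(Y)` under `P` is a prime divisor of some model of `Y`, or trivial, and `β j` is
there a regular multiple of the `s`-th power of a regular canonical form `η`. There are `r + κ(Y)`
algebraically independent ratios of them.

Compare: in `ImagesOfCurveFibrations` and `ImagesOfProductsOfCurves` the forms are twisted on `V`
itself, the fibres of `V` over `t(V)` are curves, and `κ(W) ≥ dim W - 1`; here `κ(W)` can be any number,
and the positivity is only relative to `Y`.
-/

set_option autoImplicit false
set_option linter.overlappingInstances false
set_option maxHeartbeats 4000000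
set_option synthInstance.maxHeartbeats 400000

open FF Module Pool.Agent Pool.Agent.W602.GT

namespace Pool.Agent.Results.MP_f72953_ag.RelativeTwistedForms

/-- The canonical form `g dz_1 ∧ ... ∧ dz_e` on `Y`, in the coordinates `z`: its value on vector
fields `D i`. -/
noncomputable def baseForm {E : Type} [Field E] [Algebra ℂ E] {e : ℕ} (z : Fin e → E) (g : E)
    (D : Fin e → Derivation ℂ E E) : E :=
  (Matrix.of fun i j => D i (z j) : Matrix (Fin e) (Fin e) E).det * g

/-- The canonical form `ω` on `V` is `τ ∧ dz`, where `z` are coordinates on `Y` and `τ` is a section of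
`K_{V/Y} - ∑ M p H p`; the variable `t j` is in the block `β j`: if the canonical form `g dz` on `Y` is
regular at the place of `ℂ(Y) = E` under the divisorial place `Q` of `ℂ(V) = K` (this is no condition
if `Q` is trivial on `E`), then the forms `g t ^ a ω` are regular at `Q`, for all monomials `t ^ a` of
degree at most `M p` in the variables of the block `p`. -/
def RelativeTwisted {K E : Type} [Field K] [Field E] [Algebra ℂ K] [Algebra ℂ E] [Algebra E K]
    [IsScalarTower ℂ E K] {N q e : ℕ} (n : ℕ) (z : Fin e → E) (β : Fin N → Fin q)
    (M : Fin q → ℕ) (t : Fin N → K) (ω : (Fin n → Derivation ℂ K K) → K) : Prop :=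
  IsPluri 1 ω ∧ ∀ a : Fin N → ℕ, (∀ b, ∑ j with β j = b, a j ≤ M b) →
    ∀ (g : E) (Q : Place ℂ K), Divisorial n Q →
      (∀ (R : Place ℂ E) (c : ℕ), Over Q R c → RegAt R (baseForm z g)) →
        RegAt Q (fun D => algebraMap E K g * ((∏ j, t j ^ a j) * ω D))

/-- The trace of `ω` on the variety with the function field `F ⊂ K` is not zero: for some vector
fields `D i` on `F` and their extensions `D' i` to `K`, the trace of `ω D'` is not zero. -/
def TraceNonzero {K : Type} [Field K] [Algebra ℂ K] {n : ℕ} (F : IntermediateField ℂ K)
    (ω : (Fin n → Derivation ℂ K K) → K) : Prop :=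
  ∃ (D : Fin n → Derivation ℂ F F) (D' : Fin n → Derivation ℂ K K),
    (∀ i f, D' i (algebraMap F K f) = algebraMap F K (D i f)) ∧ Algebra.trace F K (ω D') ≠ 0

/-- The degree `m Λ` of `W'` over its image in the product of `W` and the factors outside of `Λ`: the
degree of the field `L(t)` over its subfield which is generated over `L = ℂ(W)` by the variables
`t j` outside of the blocks in `Λ`. -/
noncomputable def blockDegree {K : Type} [Field K] {N q : ℕ} (L : Type) [Field L] [Algebra L K]
    (β : Fin N → Fin q) (t : Fin N → K) (Λ : Finset (Fin q)) : ℕ :=
  (IntermediateField.adjoin L (t '' {j | β j ∉ Λ})).relfinrank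
    (IntermediateField.adjoin L (Set.range t))

/-- The Kodaira dimension of the smooth projective varieties `X` of dimension `n` over `k` with the
function field `K` is at least `h`: for some `r ≥ 1` there are sections of `r K_X`, i.e. `r`-fold
canonical forms which are regular at all prime divisors, with `h` algebraically independent
ratios. -/
def KappaGe (k K : Type) [Field k] [Field K] [Algebra k K] (n h : ℕ) : Prop :=
  KodGe k K n (fun _ => False) h

/-- `κ(W) ≥ r + κ(Y)`; and `κ(W) ≥ κ(F) + κ(Y)` if `κ(V_y) ≤ r`. Here `K`, `L`, `E` are the function
fields of `V`, `W`, `Y`, and `f` is the dimension of the generic fibres `V_y` of `V → Y` and `F` of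
`W → Y`, which are the varieties over `E` with the function fields `K` and `L`. -/
def Conclusion (K L E : Type) [Field K] [Field L] [Field E] [Algebra ℂ L] [Algebra ℂ E]
    [Algebra E L] [Algebra E K] (n e f r : ℕ) : Prop :=
  ∀ p : ℕ, KappaGe ℂ E e p → KappaGe ℂ L n (r + p) ∧
    (¬ KappaGe E K f (r + 1) → ∀ s : ℕ, KappaGe E L f s → KappaGe ℂ L n (s + p))

/-- **The inequality of Iitaka for the images of families with twisted relative forms.** Let `K`, `L`,
`E` be the function fields of `V`, `W`, `Y`, where `V → W → Y` are dominant rational maps and `V → W`
has finite degree. Let `ω = τ ∧ dz` be a canonical form on `V`, where `τ` is a section of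
`K_{V/Y} - ∑ M p H p`, such that the trace of `ω` on the variety with the function field `L(t)` is not
zero (for example `L(t) = K` and `ω ≠ 0`), and let `d` be the transcendence degree of `E(t)` over `E`. Then
the conclusion is true for `r ≤ d` under the condition on the degrees `m Λ`, and for `r = d - 1` if the
degree of `L(t)` over `L` is at most `M p` for all `p`. -/
theorem result {n e f d N q : ℕ} {β : Fin N → Fin q} {M : Fin q → ℕ} {K L E : Type} [Field K]
    [Field L] [Field E] [Algebra ℂ K] [Algebra ℂ L] [Algebra ℂ E] [Algebra L K] [Algebra E L]
    [Algebra E K] [IsScalarTower ℂ L K] [IsScalarTower ℂ E L] [IsScalarTower ℂ E K]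
    [IsScalarTower E L K] [Algebra.EssFiniteType ℂ K] [Algebra.EssFiniteType ℂ E]
    [FiniteDimensional L K] (hK : Algebra.trdeg ℂ K = n) (hE : Algebra.trdeg ℂ E = e)
    (hf : Algebra.trdeg E L = f) {z : Fin e → E} (hz : IsTranscendenceBasis ℂ z) {t : Fin N → K}
    (hd : Algebra.trdeg E (IntermediateField.adjoin E (Set.range t)) = (d : ℕ))
    {ω : (Fin n → Derivation ℂ K K) → K} (hω : RelativeTwisted n z β M t ω)
    (htr : TraceNonzero ((IntermediateField.adjoin L (Set.range t)).restrictScalars ℂ) ω) :
    ((∀ Λ : Finset (Fin q), Λ.Nonempty → blockDegree L β t Λ ≤ 1 + ∑ p ∈ Λ, M p) →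
      ∀ r : ℕ, r ≤ d →
        (∀ Λ : Finset (Fin q), Λ.Nonempty →
          Algebra.trdeg E (IntermediateField.adjoin E (t '' {j | β j ∉ Λ})) < (r : ℕ) →
          2 * blockDegree L β t Λ ≤ 1 + ∑ p ∈ Λ, M p) →
        Conclusion K L E n e f r) ∧
    ((∀ p, finrank L (IntermediateField.adjoin L (Set.range t)) ≤ M p) →
      Conclusion K L E n e f (d - 1)) := by
  classical
  have hess : Algebra.EssFiniteType ℂ L := Pool.Agent.TH466.QG.ess_below (K := K)
  have hessE : Algebra.EssFiniteType E L := Algebra.EssFiniteType.of_comp ℂ E L
  have hcE : CharZero E := charZero_of_injective_algebraMap (algebraMap ℂ E).injective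
  have hconc : ∀ r : ℕ, (∀ p : ℕ, KappaGe ℂ E e p → KappaGe ℂ L n (r + p)) →
      Conclusion K L E n e f r := by
    intro r h p hp
    refine ⟨h p hp, fun hV s hs => ?_⟩
    have h1 : s ≤ r := by
      by_contra hlt
      exact hV (Pool.Agent.K4H25.RT.kodGe_up hf
        (Pool.Agent.R882.UA.kod_mono hs (not_le.1 hlt)))
    exact Pool.Agent.R882.UA.kod_mono (h p hp) (by omega)
  refine ⟨fun hm r hr hk => hconc r fun p hp => ?_, fun hm => hconc _ fun p hp => ?_⟩
  · exact (Pool.Agent.K4H25.RT.main_rel hK hE hz hω htr hd hp).1 hm r hr hk
  · exact (Pool.Agent.K4H25.RT.main_rel hK hE hz hω htr hd hp).2 hm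

end Pool.Agent.Results.MP_f72953_ag.RelativeTwistedForms
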